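import Pool.Agent.W734.TWB.Stms

/-!
Project TWB (owner helper734), part TWB-IND: elementary properties of the Jastrow factors
(`S_JAB`).
-/

set_option autoImplicit false

open MeasureTheory Set Filter Metric
open Pool.Agent.W734.TWB

namespace Pool.Agent.W612.TWB

variable {N : ℕ}

/-- pairs in `A` -/
def P2 (A : Finset (Fin N)) : Finset (Fin N × Fin N) :=
  Finset.univ.filter fun p => p.1 ∈ A ∧ p.2 ∈ A ∧ p.1 < p.2

/-- triples in `A` -/
def P3 (A : Finset (Fin N)) : Finset (Fin N × Fin N × Fin N) :=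
  Finset.univ.filter fun p => p.1 ∈ A ∧ p.2.1 ∈ A ∧ p.2.2 ∈ A ∧ p.1 < p.2.1 ∧ p.2.1 < p.2.2

theorem mem_P2 {A : Finset (Fin N)} {p : Fin N × Fin N} :
    p ∈ P2 A ↔ p.1 ∈ A ∧ p.2 ∈ A ∧ p.1 < p.2 := by simp [P2]

theorem mem_P3 {A : Finset (Fin N)} {p : Fin N × Fin N × Fin N} :
    p ∈ P3 A ↔ p.1 ∈ A ∧ p.2.1 ∈ A ∧ p.2.2 ∈ A ∧ p.1 < p.2.1 ∧ p.2.1 < p.2.2 := by simp [P3]

/-- a factor of a pair -/
noncomputable def F1 (f1 : E3 → ℝ) (x : Cfg N) (p : Fin N × Fin N) : ℝ :=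
  f1 ((N : ℝ) • (x p.1 - x p.2))

/-- a factor of a triple -/
noncomputable def F2 (f2 : E3 × E3 → ℝ) (x : Cfg N) (p : Fin N × Fin N × Fin N) : ℝ :=
  f2 (Real.sqrt N • (x p.1 - x p.2.1, x p.1 - x p.2.2))

theorem JA_eq (f1 : E3 → ℝ) (f2 : E3 × E3 → ℝ) (A : Finset (Fin N)) (x : Cfg N) :
    JA f1 f2 A x = (∏ p ∈ P2 A, F1 f1 x p) * ∏ p ∈ P3 A, F2 f2 x p := by
  unfold JA
  congr 1
  · rw [Finset.prod_sigma']
    refine Finset.prod_bij' (fun a _ => (a.1, a.2)) (fun p _ => ⟨p.1, p.2⟩) ?_ ?_ ?_ ?_ ?_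
    · rintro ⟨i, j⟩ h
      simp only [Finset.mem_sigma, Finset.mem_filter] at h
      exact mem_P2.2 ⟨h.1, h.2.1, h.2.2⟩
    · rintro ⟨i, j⟩ h
      have h1 := mem_P2.1 h
      simp only [Finset.mem_sigma, Finset.mem_filter]
      exact ⟨h1.1, h1.2.1, h1.2.2⟩
    · rintro ⟨i, j⟩ h
      rfl
    · rintro ⟨i, j⟩ h
      rfl
    · rintro ⟨i, j⟩ h
      rfl
  · rw [Finset.prod_sigma']
    rw [Finset.prod_sigma']
    refine Finset.prod_bij' (fun a _ => (a.1.1, a.1.2, a.2)) (fun p _ => ⟨⟨p.1, p.2.1⟩, p.2.2⟩)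
      ?_ ?_ ?_ ?_ ?_
    · rintro ⟨⟨i, j⟩, k⟩ h
      simp only [Finset.mem_sigma, Finset.mem_filter] at h
      exact mem_P3.2 ⟨h.1.1, h.1.2.1, h.2.1, h.1.2.2, h.2.2⟩
    · rintro ⟨i, j, k⟩ h
      have h1 := mem_P3.1 h
      simp only [Finset.mem_sigma, Finset.mem_filter]
      exact ⟨⟨h1.1, h1.2.1, h1.2.2.2.1⟩, h1.2.2.1, h1.2.2.2.2⟩
    · rintro ⟨⟨i, j⟩, k⟩ h
      rfl
    · rintro ⟨i, j, k⟩ h
      rfl
    · rintro ⟨⟨i, j⟩, k⟩ h
      rfl

theorem P2_mono {A B : Finset (Fin N)} (h : B ⊆ A) : P2 B ⊆ P2 A := by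
  intro p hp
  rw [mem_P2] at hp ⊢
  exact ⟨h hp.1, h hp.2.1, hp.2.2⟩

theorem P3_mono {A B : Finset (Fin N)} (h : B ⊆ A) : P3 B ⊆ P3 A := by
  intro p hp
  rw [mem_P3] at hp ⊢
  exact ⟨h hp.1, h hp.2.1, h hp.2.2.1, hp.2.2.2⟩

theorem prod_sub {I : Type} [DecidableEq I] (f : I → ℝ) (h0 : ∀ i, 0 ≤ f i) (h1 : ∀ i, f i ≤ 1)
    {s t : Finset I} (hst : s ⊆ t) : ∏ i ∈ t, f i ≤ ∏ i ∈ s, f i := by
  rw [← Finset.prod_sdiff hst]
  exact mul_le_of_le_one_left (Finset.prod_nonneg fun i _ => h0 i)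
    (Finset.prod_le_one (fun i _ => h0 i) fun i _ => h1 i)

theorem jab : S_JAB := by
  intro R1 R2 f1 f2 hf1 hf2 N
  have a0 : ∀ (x : Cfg N) p, 0 ≤ F1 f1 x p := fun x p => hf1.nonneg _
  have a1 : ∀ (x : Cfg N) p, F1 f1 x p ≤ 1 := fun x p => hf1.le_one _
  have b0 : ∀ (x : Cfg N) p, 0 ≤ F2 f2 x p := fun x p => hf2.nonneg _
  have b1 : ∀ (x : Cfg N) p, F2 f2 x p ≤ 1 := fun x p => hf2.le_one _
  have c0 : ∀ (x : Cfg N) (s : Finset (Fin N × Fin N)), 0 ≤ ∏ p ∈ s, F1 f1 x p :=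
    fun x s => Finset.prod_nonneg fun i _ => a0 x i
  have c1 : ∀ (x : Cfg N) (s : Finset (Fin N × Fin N)), ∏ p ∈ s, F1 f1 x p ≤ 1 :=
    fun x s => Finset.prod_le_one (fun i _ => a0 x i) fun i _ => a1 x i
  have d0 : ∀ (x : Cfg N) (s : Finset (Fin N × Fin N × Fin N)), 0 ≤ ∏ p ∈ s, F2 f2 x p :=
    fun x s => Finset.prod_nonneg fun i _ => b0 x i
  have d1 : ∀ (x : Cfg N) (s : Finset (Fin N × Fin N × Fin N)), ∏ p ∈ s, F2 f2 x p ≤ 1 :=
    fun x s => Finset.prod_le_one (fun i _ => b0 x i) fun i _ => b1 x i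
  have hJ0 : ∀ (A : Finset (Fin N)) (x : Cfg N), 0 ≤ JA f1 f2 A x := by
    intro A x
    rw [JA_eq]
    exact mul_nonneg (c0 x _) (d0 x _)
  refine ⟨?_, ?_, ?_, ?_, ?_, ?_, ?_⟩
  · intro A
    have h1 : JA f1 f2 A = fun x => (∏ p ∈ P2 A, F1 f1 x p) * ∏ p ∈ P3 A, F2 f2 x p :=
      funext fun x => JA_eq f1 f2 A x
    rw [h1]
    refine ContDiff.mul (contDiff_prod fun p _ => ?_) (contDiff_prod fun p _ => ?_)
    · have h2 : ContDiff ℝ ((⊤ : ℕ∞) : WithTop ℕ∞) fun x : Cfg N => (N : ℝ) • (x p.1 - x p.2) :=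
        ((contDiff_apply ℝ E3 p.1).sub (contDiff_apply ℝ E3 p.2)).const_smul (N : ℝ)
      exact hf1.diff.comp h2
    · have h2 : ContDiff ℝ ((⊤ : ℕ∞) : WithTop ℕ∞) fun x : Cfg N =>
          Real.sqrt N • (x p.1 - x p.2.1, x p.1 - x p.2.2) :=
        (((contDiff_apply ℝ E3 p.1).sub (contDiff_apply ℝ E3 p.2.1)).prodMk
        ((contDiff_apply ℝ E3 p.1).sub (contDiff_apply ℝ E3 p.2.2))).const_smul (Real.sqrt N)
      exact hf2.diff.comp h2
  · intro A x
    refine ⟨hJ0 A x, ?_⟩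
    rw [JA_eq]
    exact mul_le_one₀ (c1 x _) (d0 x _) (d1 x _)
  · intro A B hBA x
    rw [JA_eq, JA_eq]
    exact mul_le_mul (prod_sub _ (a0 x) (a1 x) (P2_mono hBA))
      (prod_sub _ (b0 x) (b1 x) (P3_mono hBA)) (d0 x _) (c0 x _)
  · intro A x y h
    rw [JA_eq, JA_eq]
    congr 1
    · refine Finset.prod_congr rfl fun p hp => ?_
      rw [mem_P2] at hp
      unfold F1
      rw [h _ hp.1, h _ hp.2.1]
    · refine Finset.prod_congr rfl fun p hp => ?_
      rw [mem_P3] at hp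
      unfold F2
      rw [h _ hp.1, h _ hp.2.1, h _ hp.2.2.1]
  · intro A i j hi hj hij x
    rw [JA_eq, JA_eq, ← mul_assoc]
    have hsub : A \ {i, j} ⊆ A := Finset.sdiff_subset
    have hnot : (i, j) ∉ P2 (A \ {i, j}) := by
      intro h
      have h1 := (mem_P2.1 h).1
      simp at h1
    have h2 : insert (i, j) (P2 (A \ {i, j})) ⊆ P2 A := by
      intro p hp
      rcases Finset.mem_insert.1 hp with rfl | hp
      · exact mem_P2.2 ⟨hi, hj, hij⟩
      · exact P2_mono hsub hp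
    have h3 := prod_sub _ (a0 x) (a1 x) h2
    rw [Finset.prod_insert hnot] at h3
    exact mul_le_mul h3 (prod_sub _ (b0 x) (b1 x) (P3_mono hsub)) (d0 x _)
      (mul_nonneg (a0 x (i, j)) (c0 x _))
  · intro A i j k hi hj hk hij hjk x
    rw [JA_eq, JA_eq]
    have hsub : A \ {i, j, k} ⊆ A := Finset.sdiff_subset
    have hnot : (i, j, k) ∉ P3 (A \ {i, j, k}) := by
      intro h
      have h1 := (mem_P3.1 h).1
      simp at h1
    have h2 : insert (i, j, k) (P3 (A \ {i, j, k})) ⊆ P3 A := by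
      intro p hp
      rcases Finset.mem_insert.1 hp with rfl | hp
      · exact mem_P3.2 ⟨hi, hj, hk, hij, hjk⟩
      · exact P3_mono hsub hp
    have h3 := prod_sub _ (b0 x) (b1 x) h2
    rw [Finset.prod_insert hnot] at h3
    have h4 := mul_le_mul (prod_sub _ (a0 x) (a1 x) (P2_mono hsub)) h3 (d0 x _) (c0 x _)
    refine h4.trans (le_of_eq ?_)
    show _ = F2 f2 x (i, j, k) * _
    ring
  · intro A i hi x
    have hNp : (0 : ℝ) < N := by
      have : 0 < N := i.pos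
      exact_mod_cast this
    have hsq : 0 < Real.sqrt N := Real.sqrt_pos.2 hNp
    have hnr : ∀ (r : ℝ) (m a : Fin N), 0 ≤ nr r m a x := by
      intro r m a
      unfold nr
      split_ifs <;> norm_num
    have hs1 : 0 ≤ ∑ a ∈ A.erase i, nr (R1 / N) i a x := Finset.sum_nonneg fun a _ => hnr _ _ _
    have hs2' : ∀ a, 0 ≤ ∑ b ∈ (A.erase i).erase a,
          nr (2 * R2 / Real.sqrt N) i a x * nr (2 * R2 / Real.sqrt N) a b x :=
      fun a => Finset.sum_nonneg fun b _ => mul_nonneg (hnr _ _ _) (hnr _ _ _)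
    have hs2 : 0 ≤ ∑ a ∈ A.erase i, ∑ b ∈ (A.erase i).erase a,
          nr (2 * R2 / Real.sqrt N) i a x * nr (2 * R2 / Real.sqrt N) a b x :=
      Finset.sum_nonneg fun a _ => hs2' a
    by_cases h1 : ∃ a ∈ A.erase i, ‖x i - x a‖ ≤ R1 / N
    · obtain ⟨a, ha, hle⟩ := h1
      have h2 : 1 ≤ ∑ a ∈ A.erase i, nr (R1 / N) i a x := by
        have h3 := Finset.single_le_sum (f := fun a => nr (R1 / N) i a x)
          (fun a _ => hnr _ _ _) ha
        refine le_trans ?_ h3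
        simp only [nr]
        rw [if_pos hle]
      have h3 := mul_nonneg (sq_nonneg (JA f1 f2 (A.erase i) x)) (sub_nonneg.2 h2)
      have h4 := mul_nonneg (sq_nonneg (JA f1 f2 (A.erase i) x)) hs2
      nlinarith [sq_nonneg (JA f1 f2 A x)]
    by_cases h2 : ∃ a ∈ A.erase i, ∃ b ∈ (A.erase i).erase a, ‖x i - x a‖ ≤ 2 * R2 / Real.sqrt N ∧
        ‖x a - x b‖ ≤ 2 * R2 / Real.sqrt N
    · obtain ⟨a, ha, b, hb, hl1, hl2⟩ := h2
      have h2 : 1 ≤ ∑ a ∈ A.erase i, ∑ b ∈ (A.erase i).erase a,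
          nr (2 * R2 / Real.sqrt N) i a x * nr (2 * R2 / Real.sqrt N) a b x := by
        have h3 := Finset.single_le_sum (f := fun a => ∑ b ∈ (A.erase i).erase a,
          nr (2 * R2 / Real.sqrt N) i a x * nr (2 * R2 / Real.sqrt N) a b x)
          (fun a _ => hs2' a) ha
        refine le_trans ?_ h3
        have h4 := Finset.single_le_sum (f := fun b =>
          nr (2 * R2 / Real.sqrt N) i a x * nr (2 * R2 / Real.sqrt N) a b x)
          (fun b _ => mul_nonneg (hnr _ _ _) (hnr _ _ _)) hb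
        refine le_trans ?_ h4
        simp only [nr]
        rw [if_pos hl1, if_pos hl2, one_mul]
      have h3 := mul_nonneg (sq_nonneg (JA f1 f2 (A.erase i) x)) (sub_nonneg.2 h2)
      have h4 := mul_nonneg (sq_nonneg (JA f1 f2 (A.erase i) x)) hs1
      nlinarith [sq_nonneg (JA f1 f2 A x)]
    -- all the factors of `i` are one
    push Not at h1 h2
    have hone : ∀ a ∈ A.erase i, f1 ((N : ℝ) • (x i - x a)) = 1 := by
      intro a ha
      apply hf1.one
      rw [norm_smul, Real.norm_eq_abs, abs_of_pos hNp]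
      have h3 := h1 a ha
      rw [div_lt_iff₀ hNp] at h3
      linarith
    have hone' : ∀ a ∈ A.erase i, f1 ((N : ℝ) • (x a - x i)) = 1 := by
      intro a ha
      rw [← hone a ha, ← hf1.even]
      congr 1
      rw [← smul_neg, neg_sub]
    have hmem : ∀ {a : Fin N}, a ∈ A → a ≠ i → a ∈ A.erase i := fun ha hne =>
      Finset.mem_erase.2 ⟨hne, ha⟩
    have hE : JA f1 f2 A x = JA f1 f2 (A.erase i) x := by
      rw [JA_eq, JA_eq]
      congr 1
      · symm
        apply Finset.prod_subset (P2_mono (Finset.erase_subset i A))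
        rintro ⟨p, q⟩ hp hp'
        obtain ⟨m1, m2, m3⟩ := mem_P2.1 hp
        simp only at m1 m2 m3
        by_cases hpi : p = i
        · subst hpi
          exact hone q (hmem m2 m3.ne')
        · by_cases hqi : q = i
          · subst hqi
            exact hone' p (hmem m1 m3.ne)
          · exact absurd (mem_P2.2 ⟨hmem m1 hpi, hmem m2 hqi, m3⟩) hp'
      · symm
        apply Finset.prod_subset (P3_mono (Finset.erase_subset i A))
        rintro ⟨p, q, r⟩ hp hp'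
        obtain ⟨m1, m2, m3, m4, m5⟩ := mem_P3.1 hp
        simp only at m1 m2 m3 m4 m5
        show f2 (Real.sqrt N • (x p - x q, x p - x r)) = 1
        by_contra hne
        have hlt : ‖Real.sqrt N • (x p - x q, x p - x r)‖ < R2 := by
          by_contra hc
          exact hne (hf2.one _ (not_lt.1 hc))
        rw [norm_smul, Real.norm_eq_abs, abs_of_pos hsq] at hlt
        have hq0 : ‖x p - x q‖ ≤ ‖(x p - x q, x p - x r)‖ := norm_fst_le (x p - x q, x p - x r)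
        have hr0 : ‖x p - x r‖ ≤ ‖(x p - x q, x p - x r)‖ := norm_snd_le (x p - x q, x p - x r)
        have hlt2 : ‖(x p - x q, x p - x r)‖ < R2 / Real.sqrt N := by
          rw [lt_div_iff₀ hsq]
          linarith
        have hR : 0 < R2 / Real.sqrt N := (norm_nonneg _).trans_lt hlt2
        have h2R : 2 * R2 / Real.sqrt N = R2 / Real.sqrt N + R2 / Real.sqrt N := by ring
        have hpq : ‖x p - x q‖ ≤ 2 * R2 / Real.sqrt N := by rw [h2R]; linarith
        have hpr : ‖x p - x r‖ ≤ 2 * R2 / Real.sqrt N := by rw [h2R]; linarith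
        have hqr : ‖x q - x r‖ ≤ 2 * R2 / Real.sqrt N := by
          have h3 := norm_sub_le_norm_sub_add_norm_sub (x q) (x p) (x r)
          rw [norm_sub_rev (x q) (x p)] at h3
          rw [h2R]
          linarith
        have hqp : ‖x q - x p‖ ≤ 2 * R2 / Real.sqrt N := by rwa [norm_sub_rev]
        have hrp : ‖x r - x p‖ ≤ 2 * R2 / Real.sqrt N := by rwa [norm_sub_rev]
        by_cases hpi : p = i
        · subst hpi
          exact absurd hqr (not_le.2 (h2 q (hmem m2 m4.ne') r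
            (Finset.mem_erase.2 ⟨m5.ne', hmem m3 (m4.trans m5).ne'⟩) hpq))
        · by_cases hqi : q = i
          · subst hqi
            exact absurd hpr (not_le.2 (h2 p (hmem m1 m4.ne) r
              (Finset.mem_erase.2 ⟨(m4.trans m5).ne', hmem m3 m5.ne'⟩) hqp))
          · by_cases hri : r = i
            · subst hri
              exact absurd hpq (not_le.2 (h2 p (hmem m1 (m4.trans m5).ne) q
                (Finset.mem_erase.2 ⟨m4.ne', hmem m2 m5.ne⟩) hrp))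
            · exact hp' (mem_P3.2 ⟨hmem m1 hpi, hmem m2 hqi, hmem m3 hri, m4, m5⟩)
    rw [hE]
    have h3 := mul_nonneg (sq_nonneg (JA f1 f2 (A.erase i) x)) (add_nonneg hs1 hs2)
    nlinarith

end Pool.Agent.W612.TWB
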