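import Pool.Agent.W612.TWB.Ind
import Pool.Agent.W612.TWB.Jab

/-! Project TWB (owner helper734), part TWB-IND: both theorems. -/

set_option autoImplicit false

namespace Pool.Agent.W612.TWB

/-- `S_IND` and `S_JAB` -/
theorem ind_jab : Pool.Agent.W734.TWB.S_IND ∧ Pool.Agent.W734.TWB.S_JAB := ⟨ind, jab⟩

end Pool.Agent.W612.TWB
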