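import Pool.Agent.W734.TWB.Stms

/-!
Project TWB (owner helper734), part TWB-IND: decoupling (`S_IND`).
-/

set_option autoImplicit false

open MeasureTheory Set Filter Metric
open Pool.Agent.W734.TWB

namespace Pool.Agent.W612.TWB

theorem spl {N : ℕ} (v : Fin N → E3 → ℝ) (P : Fin N → Prop) [DecidablePred P]
    (H : ({i : Fin N // P i} → E3) → ℝ) (K : ({i : Fin N // ¬ P i} → E3) → ℝ) :
    (∫ x : Cfg N, (∏ i, v i (x i)) * (H (fun i => x i) * K (fun i => x i))) =
      (∫ y : {i : Fin N // P i} → E3, (∏ i : {i : Fin N // P i}, v i (y i)) * H y) *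
        ∫ z : {i : Fin N // ¬ P i} → E3, (∏ i : {i : Fin N // ¬ P i}, v i (z i)) * K z := by
  have h1 := volume_preserving_piEquivPiSubtypeProd (fun _ : Fin N => E3) (fun i => P i)
  have h2 := h1.integral_comp (MeasurableEquiv.measurableEmbedding _)
    (fun p : ({i : Fin N // P i} → E3) × ({i : Fin N // ¬ P i} → E3) =>
      ((∏ i : {i : Fin N // P i}, v i (p.1 i)) * H p.1) *
        ((∏ i : {i : Fin N // ¬ P i}, v i (p.2 i)) * K p.2))
  rw [Measure.volume_eq_prod, integral_prod_mul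
    (fun y : {i : Fin N // P i} → E3 => (∏ i : {i : Fin N // P i}, v i (y i)) * H y)
    (fun z : {i : Fin N // ¬ P i} → E3 => (∏ i : {i : Fin N // ¬ P i}, v i (z i)) * K z)] at h2
  rw [← h2]
  apply integral_congr_ae
  refine Eventually.of_forall fun x => ?_
  show (∏ i, v i (x i)) * (H (fun i => x i) * K (fun i => x i)) =
    ((∏ i : {i : Fin N // P i}, v i (x i)) * H (fun i => x i)) *
      ((∏ i : {i : Fin N // ¬ P i}, v i (x i)) * K (fun i => x i))
  have h3 := Fintype.prod_subtype_mul_prod_subtype (fun i => P i) (fun i => v i (x i))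
  rw [← h3]
  ring

theorem ind : S_IND := by
  intro N v _ _ S H K _ _ _ _ hH hK
  obtain ⟨H', hH'⟩ : ∃ H' : ({i : Fin N // i ∈ S} → E3) → ℝ, ∀ x : Cfg N,
      H x = H' (fun i => x i) := by
    refine ⟨fun y => H fun i => if h : i ∈ S then y ⟨i, h⟩ else 0, fun x => ?_⟩
    apply hH
    intro i hi
    simp only [dif_pos hi]
  obtain ⟨K', hK'⟩ : ∃ K' : ({i : Fin N // ¬ i ∈ S} → E3) → ℝ, ∀ x : Cfg N,
      K x = K' (fun i => x i) := by
    refine ⟨fun y => K fun i => if h : ¬ i ∈ S then y ⟨i, h⟩ else 0, fun x => ?_⟩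
    apply hK
    intro i hi
    simp only [dif_pos hi]
  have e1 := spl v (fun i => i ∈ S) H' K'
  have e2 := spl v (fun i => i ∈ S) H' (fun _ => 1)
  have e3 := spl v (fun i => i ∈ S) (fun _ => 1) K'
  have e4 := spl v (fun i => i ∈ S) (fun _ => 1) (fun _ => 1)
  simp only [mul_one, one_mul] at e1 e2 e3 e4
  have e5 : ∏ i, ∫ z, v i z = ∫ x : Cfg N, ∏ i, v i (x i) :=
    (integral_fintype_prod_volume_eq_prod v).symm
  simp only [hH', hK']
  rw [e1, e2, e3, e5, e4]
  ring

end Pool.Agent.W612.TWB
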